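import Mathlib
import Pool.Agent.Run7.h879.BP.Rank

/-!
# Perfectness of all motivic pairings of `A × Z`, for almost all abelian varieties `A`

Let `g i` (`i` in a finite set `I`) be positive integers, `r` an integer smaller than all the `g i`
and `E` a number field. For a prime power `q` let `S i` be the set of the characteristic polynomials
of Frobenius of the ordinary abelian varieties of dimension `g i` over the field with `q` elements,
or of all abelian varieties of dimension `g i`, or any set in between. By Weil, Honda and Tate its
elements correspond to the isogeny classes, the first set contains `ordinaryWeilPolys q (g i)`, and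
the second one is contained in `weilPolys q (g i)`.

For all families `f i` in `S i` with the exception of a proportion `O (q ^ (-1 / 6) log q)`, the
constant depending only on `g` and `E`, the following holds (`PairingsForRankOver`) for all `s > 0`,
`Q = q ^ s`, all abelian varieties `A` over the field with `Q` elements which are isogenous to
products of powers of abelian varieties coming from the field with `q` elements, with characteristic
polynomials `f i`, and **all** smooth projective varieties `Z` over the field with `Q` elements such
that

* the eigenvalues of Frobenius on the cohomology of `Z` and their conjugates generate a group of rank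
  at most `r` modulo the group of the numbers with a power in `E`;
* homologically trivial self-correspondences of degree zero of `A × Z` are nilpotent, for instance
  the motive of `Z` is finite-dimensional in the sense of Kimura and O'Sullivan.

For all integers `i` and `n`, `i = 2 n - m`, **the pairing** `⟨ , ⟩_(i, n)` **of**
`H^i(A × Z, ℚ(n))` **and** `H^(2 d - i)(A × Z, ℚ(d - n))`, `d = dim A + dim Z`, **is perfect if and
only if the pairings** `⟨ , ⟩_(2 n' - m, n')` **of** `Z` **with** `n - dim A ≤ n' ≤ n` **are perfect.**

So `BP(n)` for `A × Z` is equivalent to `BP(n')` for `Z`, `n - dim A ≤ n' ≤ n`, with the same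
difference `2 n - i`. If `Z` is a point or a curve, all pairings of `Z` are perfect (theorems of
Quillen and Harder), and so are all those of `A × Z`.

The groups are rational vector spaces, and the pairings are perfect in the sense of Mathlib
(`LinearMap.IsPerfPair`): both maps to the dual spaces are bijective. The framework (`TheoryData`,
`IsChow`, `IsWeil`, `MotivicData`, `IsSituation`) is the one of helper492 and helper484.
`PairingData` are data for the groups `G n m = CH^n(X, m)_ℚ = H^(2 n - m)(X, ℚ(n))` and the pairings;
`IsPairing` says that the groups with `m < 0` vanish, that the ones with `m > 0` are the values of a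
theory `T m` on which correspondences act, and that for `m = 0` they are the Chow groups with
the degrees of the intersection products.

The idea of the proof: the sieve of helper521 and helper484 shows that for almost all families the
generalized eigenvectors of Frobenius in the cohomology of `A × Z` for the eigenvalues `Q ^ i` are
sums of products of products of divisors on `A` and of classes on `Z`. With the nilpotence this gives
the Kunneth formula `CH^n(A × Z, m)_ℚ = ⨁ D j × CH^(n - c j)(Z, m)_ℚ` for all `m` with the same
classes `D j`, of codimension `c j` (helper484, after Soule, Geisser and Kahn), and each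
codimension between `0` and `dim A` occurs (helper154). For `m > 0` the pairing is perfect if and
only if `CH^n(A × Z, m)_ℚ = 0`, for `m < 0` if and only if `CH^(d - n)(A × Z, -m)_ℚ = 0`; and
`d - n - c j = dim Z - n'` for the numbers `n'` between `n - dim A` and `n`. For `m = 0` the pairing
for `A × Z` is the orthogonal sum of the pairings for `Z` (helper154).
-/

set_option autoImplicit false

namespace Pool.Agent.Results.MP_a9d3bd_ag.AlmostAllAbelianTimes

open Polynomial Pool.Agent.W521.Descent Pool.Agent.W521.Count Pool.Agent.W484.TB
  Pool.Agent.W484.CK Run7.h879.BP

/-- `weilPolys q g` is the set of monic integral polynomials of degree `2 g` with constant term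
`q ^ g` and all roots of absolute value `√q`; `ordinaryWeilPolys q g` is the subset of those
whose coefficient of index `g` is prime to `q`. -/
theorem result {I : Type} [Fintype I] (g : I → ℕ) (r : ℕ) (hr : ∀ i, r < g i)
    (E : IntermediateField ℚ ℂ) [FiniteDimensional ℚ E] :
    ∃ C : ℝ, ∀ q : ℕ, IsPrimePow q → ∀ S : I → Set ℤ[X],
      (∀ i, ordinaryWeilPolys q (g i) ⊆ S i ∧ S i ⊆ weilPolys q (g i)) →
      (∀ i, (S i).Finite ∧ (S i).Nonempty) ∧
      ({f : I → ℤ[X] | (∀ i, f i ∈ S i) ∧ ¬ PairingsForRankOver E q r f}.ncard : ℝ) ≤
        C * (Real.log q * (q : ℝ) ^ (-(1 / 6) : ℝ)) * ∏ i, ((S i).ncard : ℝ) :=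
  count_of_goodU (splitPrimes E) (dense_splitPrimes E) g
    (fun i => (Nat.zero_le r).trans_lt (hr i)) (fun q f => PairingsForRankOver E q r f)
    fun _ hq x hx => pairingsForRankOver_of_good g E hq.one_lt r hr x hx

end Pool.Agent.Results.MP_a9d3bd_ag.AlmostAllAbelianTimes
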