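import Mathlib
import Pool.Agent.Q29.EP.RowsCT
import Pool.Agent.Run7.h879.BP.Times

/-!
# Perfectness of all motivic pairings of `A × Z`, for one half of all slope types of every CM field of
degree `2 r ^ k`

Let `K i` (`i` in a finite set) be CM fields of degree `2 g i` which are pairwise independent: for
`i ≠ k` and all complex embeddings `φ` of `K i` and `ψ` of `K k` some automorphism of `ℂ` is the
identity on `φ (K i)` and the complex conjugation on `ψ (K k)` (this is no condition if there is
only one field).

We fix an isomorphism `ν` of the algebraic closure of `ℚ_p` with `ℂ`; it defines a `p`-adic
valuation of `ℂ`, with the value one at `p`. Let `M i` be a function with integral values on the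
complex embeddings of `K i`, invariant under complex conjugation (the weights). A CM type `Φ i` of
`K i` (a choice of one element out of each complex conjugate pair of embeddings), `M i` and a real
number `κ ≠ 0` prescribe the slopes `(a + κ M) / 2` (at the embeddings in `Φ i`) and `(a - κ M) / 2`
(outside of `Φ i`) of a Weil number for `p ^ a` in `K i`. If `p` splits completely in `K i` then, by
Honda and Tate, all rational slopes between `0` and `a` that are symmetric in this way occur for
abelian varieties over finite fields. The case `M = 1`, `κ = a` is the ordinary case.

**The property of the slope types.** For a family of types `Φ i` the property `Q` is the following.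
Let `π i` be Weil numbers for `q = p ^ a` that generate the fields `K i` and have the slope types
`Φ i`, `M i` (`HasType`), and let `f i` be monic polynomials whose complex roots are conjugates of
`π i` (`IsPolyOf`), for instance the characteristic polynomials of Frobenius of the abelian varieties
in the isogeny classes of the `π i` over the field with `q` elements. Let `A` be an abelian variety
over the field with `Q = q ^ s` elements which is isogenous to a product of powers of abelian
varieties coming from the field with `q` elements, with characteristic polynomials `f i`, and let
`Z` be **any** smooth projective variety over the field with `Q` elements such that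

* the eigenvalues `ρ` of Frobenius on the cohomology of `Z` and their conjugates are independent of
  the fields `K i` (`Independent`): for each complex embedding `ψ` of `K i` there is an automorphism
  `τ` of `ℂ` which fixes a power of `ρ` and is the complex conjugation on `ψ (K i)`. This is so if
  the eigenvalues have powers in a number field which is linearly disjoint from the normal closures
  of the `K i`, or powers in a totally real field (take for `τ` the complex conjugation);
* homologically trivial self-correspondences of degree zero of `A × Z` are nilpotent, for instance
  the motive of `Z` is finite-dimensional in the sense of Kimura and O'Sullivan.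

For all integers `i` and `n`, `i = 2 n - m`, **the pairing** `⟨ , ⟩_(i, n)` **of**
`H^i(A × Z, ℚ(n))` **and** `H^(2 d - i)(A × Z, ℚ(d - n))`, `d = dim A + dim Z`, **is perfect if and
only if the pairings** `⟨ , ⟩_(2 n' - m, n')` **of** `Z` **with** `n - dim A ≤ n' ≤ n` **are perfect.**
(`PairingsTimes`; see `AllCMTypesTimes` for the framework.)

**The theorem.** Let `E` be **any CM field of degree `2 g = 2 r ^ k`**, `r` a prime number, of
degree at least `16` if `r = 2`. Nothing is assumed about the Galois group of the normal closure of
`E`, and nothing about the subfields of `E`.

* (`HalfOfAll`) For all weights `M` (odd if `r = 2`; if `r` is odd then `r` may divide some, but not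
  all of them) the property `Q` is true for **at least one half of all `2 ^ g` types** of `E`.
* (`MostWithWeightsOne`) For the weights `M = 1` (for instance in the ordinary case) it is true for
  at least `(1 - 1 / r) 2 ^ g` of the types.
* (`OneOfTwo`) There is a set `B` of embeddings of `E`, stable under complex conjugation, such that
  for **every** type `Φ` it is true for `Φ` or for the symmetric difference of `Φ` and `B`.
* (`SixteenPercent`) There is a number `g₀` such that for every CM field that is **abelian over
  `ℚ`**, of any degree `2 g ≥ 2 g₀`, and all odd weights it is true for at least 16 percent of all
  `2 ^ g` types; again nothing is assumed on the subfields.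

All this is proved more generally for finitely many pairwise independent fields `K i`; the
proportions are then multiplied. The theorem `AllCMTypesTimes` says nothing for these fields if they
have many CM subfields (for instance for the multiquadratic ones, where one half is the best possible
proportion for the types without relations).

The proof: the pairings of `A × Z` are reduced to those of `Z` if there are no multiplicative
relations (`Run7/h879/BP`); the proportion of the types without relations is at least one half by the
theorem of the starting files (`Q29/DP`, `Q29/EP`, used there for the vanishing of the motivic
cohomology in all weights `≤ n`).
-/

set_option autoImplicit false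

namespace Pool.Agent.Results.MP_a9d3bd_ag.HalfOfAllTimes

open NumberField Module Pool.Agent.H204R3.CM Pool.Agent.H977R3.CM Pool.Agent.Y1.KN
  Pool.Agent.Y1.CT Pool.Agent.Q29.EP Run7.h879.BP

open Pool.Agent.Q29.DP (of_independent)

/-- The property of the slope types `Φ i` with the weights `M i`. -/
def Q : TypeProperty := fun _ _ ν _ _ K _ _ _ M Φ => ForAllTypes ν K M (PairingsTimes K) Φ

/-- **All motivic pairings of `A × Z` are perfect in exactly the bidegrees which the ones of `Z`
predict, for the abelian varieties `A` with one half of all slope types of every CM field of degree
`2 r ^ k`, and all independent `Z`.** -/
theorem result : HalfOfAll Q ∧ MostWithWeightsOne Q ∧ OneOfTwo Q ∧ SixteenPercent Q := by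
  have h : WithoutRelations Q := of_independent (P := fun _ K _ => PairingsTimes K)
    fun _ _ _ _ _ _ hQ hR => pairingsTimes hQ hR
  exact ⟨halfOfAll h, mostWithWeightsOne h, oneOfTwo h, sixteenPercent h⟩

end Pool.Agent.Results.MP_a9d3bd_ag.HalfOfAllTimes
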