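import Mathlib
import Pool.Agent.N578.LB.Main
import Pool.Agent.Run7.h879.BP.Rank

/-!
# Perfectness of all motivic pairings of `A × Z`: exceptions are rare in every box of every lattice

Let `g i` (`i` in a finite set `I`) be positive integers, `r` an integer smaller than all the `g i`
and `E` a number field. Put `n = ∑ g i`. For a prime power `q` a point `x` of `ℤ ^ n` gives monic
polynomials `h i` of degree `g i` and the polynomials `f i = X ^ (g i) h i (X + q / X)`; all Weil
`q`-polynomials of degree `2 g i` are of this form, and by Weil, Honda and Tate they correspond to the
isogeny classes of abelian varieties of dimension `g i` over the field with `q` elements (up to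
multiplicities).

The theorem `AlmostAllAbelianTimes` treats all the Weil polynomials together. Here we show that the
exceptions are rare **everywhere**: for all `q` and all `B ≥ 2` they are a proportion
`O (B ^ (-1 / 3) log B)` of the points in every parallelepiped, with sides at least `B`, of every
translate of a lattice of finite index, where the index may have up to `B ^ (1 / 4)` prime factors
and the basis is arbitrary. The constant does not depend on `q`, so that `B` can be much smaller than
`q`, for instance `B = log q`, or a large constant. Diagonal matrices give the residue classes modulo
all numbers, in particular modulo the powers of the characteristic, that is, all Newton strata (with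
first slope smaller than `1 / 2`, in the form `q ∤ tr (h i) ^ 2`). Moreover there is a constant `R`
such that for all `q ≥ R` every point of `ℤ ^ n` has a good point at distance at most `R`.

The property (`PairingsForRankOver`): for all `s > 0`, `Q = q ^ s`, all abelian varieties `A` over the
field with `Q` elements which are isogenous to products of powers of abelian varieties coming from
the field with `q` elements, with characteristic polynomials `f i`, and all smooth projective `Z` over
the field with `Q` elements whose Frobenius eigenvalues and their conjugates generate a group of rank
at most `r` modulo the numbers with a power in `E`, such that homologically trivial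
self-correspondences of `A × Z` of degree zero are nilpotent: for all integers `i` and `n`,
`i = 2 n - m`, the pairing `⟨ , ⟩_(i, n)` of `A × Z` is perfect if and only if the pairings
`⟨ , ⟩_(2 n' - m, n')` of `Z` with `n - dim A ≤ n' ≤ n` are perfect.

The proof is the sieve of helper521 and helper484 with the primes that split completely in the Galois
closure of `E`, pulled back by the matrix of the lattice (helper578), together with the theorem on the
pairings of `AlmostAllAbelianTimes`.
-/

set_option autoImplicit false

namespace Pool.Agent.Results.MP_a9d3bd_ag.LatticeBoxes

open Polynomial Pool.Agent.W484.TB Pool.Agent.W484.CK Pool.Agent.N578.LB Run7.h879.BP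

/-- For positive integers `g i > r` and a number field `E`, the property `PairingsForRankOver E q r f`
of families `f` of Weil `q`-polynomials of degrees `2 g i` holds `InAllLattices`: for a constant `C`,
all prime powers `q`, all `B ≥ 2`, in every parallelepiped with sides at least `B` of every translate
of a lattice whose index has at most `B ^ (1 / 4)` prime factors the exceptions are a proportion
`≤ C B ^ (-1 / 3) log B`; and for a constant `R` and `q ≥ R` every point is at distance at most `R` from
a good one. -/
theorem result {I : Type} [Fintype I] [DecidableEq I] (g : I → ℕ) (r : ℕ) (hr : ∀ i, r < g i)
    (E : IntermediateField ℚ ℂ) [FiniteDimensional ℚ E] :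
    InAllLattices g (fun q f => PairingsForRankOver E q r f) :=
  inAllLattices (splitPrimes E) (dense_splitPrimes E) g (fun i => (Nat.zero_le r).trans_lt (hr i)) _
    fun _ hq x hx => pairingsForRankOver_of_good g E hq.one_lt r hr x hx

end Pool.Agent.Results.MP_a9d3bd_ag.LatticeBoxes
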